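import Pool.Agent.Y251.LT.Stm

/-!
Job LT-LAP (project LT of helper251): Laplace's method with explicit constants.
-/

set_option autoImplicit false

open Set MeasureTheory

namespace Pool.Agent.Y441.LT

lemma tail_exp {c s a : ℝ} (hc : 0 < c) : ∫ y in s..a, Real.exp (-(c * y)) =
    (Real.exp (-(c * s)) - Real.exp (-(c * a))) / c := by
  have h : ∀ y ∈ uIcc s a, HasDerivAt (fun y => -(Real.exp (-(c * y)) / c))
      (Real.exp (-(c * y))) y := by
    intro y _
    have h1 : HasDerivAt (fun y => -(c * y)) (-c) y := by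
      have h0 := (hasDerivAt_id y).const_mul (-c)
      rw [mul_one] at h0
      have e : (fun y : ℝ => -(c * y)) = fun y => -c * id y := by
        funext z
        simp
      rw [e]
      exact h0
    have h2 := (h1.exp.div_const c).neg
    have e : -(Real.exp (-(c * y)) * -c / c) = Real.exp (-(c * y)) := by
      field_simp
    rw [e] at h2
    exact h2
  rw [intervalIntegral.integral_eq_sub_of_hasDerivAt h
    ((by fun_prop : Continuous fun y => Real.exp (-(c * y))).intervalIntegrable _ _)]
  ring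

theorem lap : Pool.Agent.Y251.LT.S_LAP := by
  intro A a E hA ha ha1 hAa hE hEA
  set q : ℝ := Real.sqrt A with hq
  have hq0 : 0 < q := Real.sqrt_pos.mpr hA
  have hqq : q * q = A := Real.mul_self_sqrt hA.le
  set s : ℝ := 3 / q with hs
  set t : ℝ := 1 / q with ht
  have hs0 : 0 < s := by positivity
  have ht0 : 0 < t := by positivity
  have hts : t ≤ s := by
    rw [hs, ht]; exact div_le_div_of_nonneg_right (by norm_num) hq0.le
  have hqa : 10 ≤ q * a := by
    by_contra hc
    push Not at hc
    have : (q * a) * (q * a) < 10 * 10 := by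
      have : 0 ≤ q * a := by positivity
      nlinarith
    have e : (q * a) * (q * a) = A * a ^ 2 := by rw [← hqq]; ring
    linarith
  have hsa : s ≤ a := by
    rw [hs, div_le_iff₀ hq0]
    linarith
  have hs2 : A * s ^ 2 = 9 := by
    rw [hs, ← hqq]; field_simp; norm_num
  have ht2 : A * t ^ 2 = 1 := by
    rw [ht, ← hqq]; field_simp
  set F : ℝ → ℂ := fun y => Complex.exp (E y) * Complex.exp (-((y : ℂ) * Complex.I)) with hF
  have hFc : ContinuousOn F (Icc (-a) a) := by
    refine (Complex.continuous_exp.comp_continuousOn hE).mul ?_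
    exact (by fun_prop : Continuous fun y : ℝ =>
      Complex.exp (-((y : ℂ) * Complex.I))).continuousOn
  have hint : ∀ u v : ℝ, -a ≤ u → u ≤ v → v ≤ a → IntervalIntegrable F volume u v := by
    intro u v h1 h2 h3
    apply ContinuousOn.intervalIntegrable
    rw [uIcc_of_le h2]
    exact hFc.mono (Icc_subset_Icc h1 h3)
  have hre : ∀ y ∈ Icc (-a) a, (E y).re ≤ -(35 / 100 * (A * y ^ 2)) ∧
      -(65 / 100 * (A * y ^ 2)) ≤ (E y).re ∧ |(E y).im| ≤ 15 / 100 * (A * y ^ 2) := by
    intro y hy
    have h := hEA y hy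
    have h1 := (Complex.abs_re_le_norm _).trans h
    have h2 := (Complex.abs_im_le_norm _).trans h
    rw [Complex.add_re, Complex.ofReal_re] at h1
    rw [Complex.add_im, Complex.ofReal_im, add_zero] at h2
    have h3 := abs_le.mp h1
    refine ⟨?_, ?_, h2⟩
    · linarith [h3.2]
    · linarith [h3.1]
  have hFre : ∀ y : ℝ, (F y).re = Real.exp (E y).re * Real.cos ((E y).im - y) := by
    intro y
    simp only [hF]
    rw [← Complex.exp_add, Complex.exp_re]
    have e1 : (E y + -((y : ℂ) * Complex.I)).re = (E y).re := by simp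
    have e2 : (E y + -((y : ℂ) * Complex.I)).im = (E y).im - y := by simp; ring
    rw [e1, e2]
  have hFn : ∀ y : ℝ, ‖F y‖ = Real.exp (E y).re := by
    intro y
    simp only [hF]
    rw [norm_mul, Complex.norm_exp, Complex.norm_exp]
    simp
  -- the centre
  have hpos : ∀ y ∈ Icc (-s) s, 0 ≤ (F y).re := by
    intro y hy
    have hy' : y ∈ Icc (-a) a := ⟨by linarith [hy.1], by linarith [hy.2]⟩
    have h1 := (hre y hy').2.2
    have h2 : A * y ^ 2 ≤ 9 := by
      rw [← hs2]
      apply mul_le_mul_of_nonneg_left _ hA.le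
      nlinarith [hy.1, hy.2]
    have h3 : |y| ≤ 1 / 10 := (abs_le.mpr ⟨by linarith [hy'.1], by linarith [hy'.2]⟩ : |y| ≤ a).trans ha1
    rw [hFre]
    apply mul_nonneg (Real.exp_pos _).le
    apply Real.cos_nonneg_of_mem_Icc
    have h4 := abs_le.mp h1
    have h5 := abs_le.mp h3
    have hpi := Real.pi_gt_three
    constructor <;> nlinarith [h4.1, h4.2, h5.1, h5.2]
  have hbig : ∀ y ∈ Icc (-t) t, 3 / 10 ≤ (F y).re := by
    intro y hy
    have hy' : y ∈ Icc (-a) a := ⟨by linarith [hy.1], by linarith [hy.2]⟩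
    obtain ⟨-, h0, h1⟩ := hre y hy'
    have h2 : A * y ^ 2 ≤ 1 := by
      rw [← ht2]
      apply mul_le_mul_of_nonneg_left _ hA.le
      nlinarith [hy.1, hy.2]
    have h3 : |y| ≤ 1 / 10 := (abs_le.mpr ⟨by linarith [hy'.1], by linarith [hy'.2]⟩ : |y| ≤ a).trans ha1
    rw [hFre]
    have h6 : 35 / 100 ≤ Real.exp (E y).re := by
      have := Real.add_one_le_exp (E y).re
      linarith
    have h7 : 96 / 100 ≤ Real.cos ((E y).im - y) := by
      have h8 := Real.one_sub_sq_div_two_le_cos (x := (E y).im - y)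
      have h9 : |(E y).im - y| ≤ 1 / 4 := by
        refine (abs_sub _ _).trans ?_
        linarith
      have h10 : ((E y).im - y) ^ 2 ≤ (1 / 4) ^ 2 := by
        rw [← sq_abs]
        exact pow_le_pow_left₀ (abs_nonneg _) h9 2
      linarith
    have h11 : (35 / 100 : ℝ) * (96 / 100) ≤ Real.exp (E y).re * Real.cos ((E y).im - y) :=
      mul_le_mul h6 h7 (by norm_num) (Real.exp_pos _).le
    linarith
  have hrc : ∀ u v : ℝ, -a ≤ u → u ≤ v → v ≤ a →
      IntervalIntegrable (fun y => (F y).re) volume u v := by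
    intro u v h1 h2 h3
    apply ContinuousOn.intervalIntegrable
    rw [uIcc_of_le h2]
    exact Complex.continuous_re.comp_continuousOn (hFc.mono (Icc_subset_Icc h1 h3))
  have hcen : 6 / 10 * t ≤ ∫ y in (-s)..s, (F y).re := by
    have i1 := hrc (-s) (-t) (by linarith) (by linarith) (by linarith)
    have i2 := hrc (-t) t (by linarith) (by linarith) (by linarith)
    have i3 := hrc t s (by linarith) hts hsa
    rw [← intervalIntegral.integral_add_adjacent_intervals (i1.trans i2) i3,
      ← intervalIntegral.integral_add_adjacent_intervals i1 i2]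
    have h1 : 0 ≤ ∫ y in (-s)..(-t), (F y).re :=
      intervalIntegral.integral_nonneg (by linarith) (fun y hy => hpos y ⟨hy.1, by linarith [hy.2]⟩)
    have h3 : 0 ≤ ∫ y in t..s, (F y).re :=
      intervalIntegral.integral_nonneg hts (fun y hy => hpos y ⟨by linarith [hy.1], hy.2⟩)
    have h2 : ∫ _y in (-t)..t, (3 / 10 : ℝ) ≤ ∫ y in (-t)..t, (F y).re :=
      intervalIntegral.integral_mono_on (by linarith) (by simp) i2 (fun y hy => hbig y hy)
    rw [intervalIntegral.integral_const, smul_eq_mul] at h2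
    linarith
  -- the tails
  set c : ℝ := 105 / 100 * q with hc
  have hc0 : 0 < c := by positivity
  have hcs : Real.exp (-(c * s)) / c ≤ 5 / 100 * t := by
    have e1 : c * s = 315 / 100 := by rw [hc, hs]; field_simp; norm_num
    rw [e1, hc, ht]
    have e2 : Real.exp (-(315 / 100 : ℝ)) ≤ 525 / 10000 := by
      rw [Real.exp_neg, inv_le_comm₀ (Real.exp_pos _) (by norm_num)]
      have h1 : Real.exp 3 ≤ Real.exp (315 / 100) := Real.exp_le_exp.mpr (by norm_num)
      have h2 : Real.exp 3 = Real.exp 1 ^ 3 := by rw [← Real.exp_nat_mul]; norm_num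
      have h3 : (27 / 10 : ℝ) ^ 3 ≤ Real.exp 1 ^ 3 :=
        pow_le_pow_left₀ (by norm_num) (by linarith [Real.exp_one_gt_d9]) 3
      have h4 : ((525 : ℝ) / 10000)⁻¹ ≤ (27 / 10) ^ 3 := by norm_num
      linarith
    rw [div_le_iff₀ (by positivity)]
    calc Real.exp (-(315 / 100 : ℝ)) ≤ 525 / 10000 := e2
      _ = 5 / 100 * (1 / q) * (105 / 100 * q) := by field_simp; norm_num
  have hdec : ∀ y : ℝ, s ≤ |y| → |y| ≤ a → ‖F y‖ ≤ Real.exp (-(c * |y|)) := by
    intro y h1 h2
    rw [hFn]
    apply Real.exp_le_exp.mpr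
    have hy : y ∈ Icc (-a) a := abs_le.mp h2
    refine (hre y hy).1.trans ?_
    rw [neg_le_neg_iff]
    have e : y ^ 2 = |y| * |y| := by rw [← sq, sq_abs]
    rw [e]
    have h3 : A * s = 3 * q := by rw [hs, ← hqq]; field_simp
    have h4 : A * s * |y| ≤ A * |y| * |y| := by
      apply mul_le_mul_of_nonneg_right _ (abs_nonneg y)
      exact mul_le_mul_of_nonneg_left h1 hA.le
    rw [h3] at h4
    rw [hc]
    nlinarith
  have hR : ‖∫ y in s..a, F y‖ ≤ 5 / 100 * t := by
    have h1 : ‖∫ y in s..a, F y‖ ≤ ∫ y in s..a, Real.exp (-(c * y)) := by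
      apply intervalIntegral.norm_integral_le_of_norm_le hsa
      · refine Filter.Eventually.of_forall (fun y hy => ?_)
        have h2 : |y| = y := abs_of_pos (hs0.trans hy.1)
        have := hdec y (by rw [h2]; exact hy.1.le) (by rw [h2]; exact hy.2)
        rwa [h2] at this
      · exact (by fun_prop : Continuous fun y => Real.exp (-(c * y))).intervalIntegrable _ _
    rw [tail_exp hc0] at h1
    refine h1.trans (le_trans ?_ hcs)
    apply div_le_div_of_nonneg_right _ hc0.le
    linarith [Real.exp_pos (-(c * a))]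
  have hL : ‖∫ y in (-a)..(-s), F y‖ ≤ 5 / 100 * t := by
    have h1 : ‖∫ y in (-a)..(-s), F y‖ ≤ ∫ y in (-a)..(-s), Real.exp (-(c * (-y))) := by
      apply intervalIntegral.norm_integral_le_of_norm_le (by linarith)
      · refine Filter.Eventually.of_forall (fun y hy => ?_)
        have h2 : |y| = -y := abs_of_neg (by linarith [hy.2])
        have := hdec y (by rw [h2]; linarith [hy.2]) (by rw [h2]; linarith [hy.1])
        rwa [h2] at this
      · exact (by fun_prop : Continuous fun y => Real.exp (-(c * (-y)))).intervalIntegrable _ _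
    rw [intervalIntegral.integral_comp_neg (fun y => Real.exp (-(c * y))), neg_neg, neg_neg,
      tail_exp hc0] at h1
    refine h1.trans (le_trans ?_ hcs)
    apply div_le_div_of_nonneg_right _ hc0.le
    linarith [Real.exp_pos (-(c * a))]
  -- together
  have j1 := hint (-a) (-s) le_rfl (by linarith) (by linarith)
  have j2 := hint (-s) s (by linarith) (by linarith) hsa
  have j3 := hint s a (by linarith) hsa le_rfl
  have hsum : ∫ y in (-a)..a, F y =
      (∫ y in (-a)..(-s), F y) + (∫ y in (-s)..s, F y) + ∫ y in s..a, F y := by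
    rw [← intervalIntegral.integral_add_adjacent_intervals (j1.trans j2) j3,
      ← intervalIntegral.integral_add_adjacent_intervals j1 j2]
  have hmid : 6 / 10 * t ≤ ‖∫ y in (-s)..s, F y‖ := by
    have h1 : (∫ y in (-s)..s, F y).re = ∫ y in (-s)..s, (F y).re := by
      have := Complex.reCLM.intervalIntegral_comp_comm j2
      simpa using this.symm
    calc 6 / 10 * t ≤ ∫ y in (-s)..s, (F y).re := hcen
      _ = (∫ y in (-s)..s, F y).re := h1.symm
      _ ≤ ‖∫ y in (-s)..s, F y‖ := Complex.re_le_norm _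
  have e : 1 / (2 * q) = 5 / 10 * t := by rw [ht]; field_simp; norm_num
  rw [e]
  change 5 / 10 * t ≤ ‖∫ y in (-a)..a, F y‖
  rw [hsum]
  set u := ∫ y in (-a)..(-s), F y
  set v := ∫ y in (-s)..s, F y
  set w := ∫ y in s..a, F y
  have h1 : ‖v‖ ≤ ‖u + v + w‖ + ‖u‖ + ‖w‖ := by
    have : v = (u + v + w) - u - w := by ring
    calc ‖v‖ = ‖(u + v + w) - u - w‖ := by rw [← this]
      _ ≤ ‖(u + v + w) - u‖ + ‖w‖ := norm_sub_le _ _
      _ ≤ ‖u + v + w‖ + ‖u‖ + ‖w‖ := by linarith [norm_sub_le (u + v + w) u]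
  linarith

end Pool.Agent.Y441.LT
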